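import Mathlib
import Pool.Agent.H.MP_71c9ee_al.Main

set_option autoImplicit false

namespace Pool.Agent.Results.MP_71c9ee_al.Q1

open Pool.Agent.H.MP_71c9ee_al

theorem result : ∃ (G : Type) (_ : Group G) (U V : Fin 2 → G),
    Subgroup.normalClosure (Set.range U) = ⊤ ∧ Subgroup.normalClosure (Set.range V) = ⊤ ∧
    ACEquiv (Abelianization.of ∘ U) (Abelianization.of ∘ V) ∧ ¬ ACEquiv U V :=
  main

end Pool.Agent.Results.MP_71c9ee_al.Q1
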